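import Pool.Agent.Run7.h51.LL.Domain

/-!
# Completeness of polynomials for every weight depending on Green's function

**The log-log condition is not necessary.** For every weight function `W : (0, 1] → (0, ∞)` which
is nondecreasing and tends to `0` at `0` (however slowly) there is a bounded simply connected
domain `Ω` whose boundary has area zero and whose inner boundary is nonempty (more precisely,
`closure Ω` is the closed unit disc, and `Ω` is not the open unit disc), such that the polynomials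
are dense in `L^p_a (Ω, W (1 - |φ|) dx dy)` for all `1 ≤ p < ∞`, where `φ` is a conformal map of `Ω`
onto the unit disc with `φ 0 = 0`. This applies to weights such as `W t = t`, for which
`∫_0 log log (1 / W t) dt` converges.
-/

open Set Metric Filter Topology MeasureTheory
open scoped ENNReal

namespace Pool.Agent.Results.MP_d321f7_an.LogLogNotNecessary

/-- Weight functions: `W : (0, 1] → (0, ∞)` is nondecreasing with limit `0` at `0` (hence bounded by
`W 1`). -/
structure IsWeight (W : ℝ → ℝ) : Prop where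
  pos : ∀ t ∈ Ioc (0 : ℝ) 1, 0 < W t
  mono : MonotoneOn W (Ioc 0 1)
  lim : Tendsto W (𝓝[>] 0) (𝓝 0)

/-- The log-log integral of `W` converges at `0`. -/
def LogLogConverges (W : ℝ → ℝ) : Prop :=
  ∃ t₀ : ℝ, 0 < t₀ ∧ IntegrableOn (fun t => Real.log (Real.log (1 / W t))) (Ioo 0 t₀) volume

/-- The measure `w dx dy` on `Ω`, where `w z = W (1 - |φ z|)`. -/
noncomputable def wMeasure (Ω : Set ℂ) (φ : ℂ → ℂ) (W : ℝ → ℝ) : Measure ℂ :=
  (volume.restrict Ω).withDensity fun z => ENNReal.ofReal (W (1 - ‖φ z‖))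

/-- `H^p (Ω, w dx dy) = L^p_a (Ω, w dx dy)`: every function in `L^p (Ω, w dx dy)` which is analytic
in `Ω` is a limit of polynomials in the norm of `L^p (Ω, w dx dy)`. -/
def PolynomialsComplete (Ω : Set ℂ) (φ : ℂ → ℂ) (W : ℝ → ℝ) (p : ℝ≥0∞) : Prop :=
  ∀ f : ℂ → ℂ, DifferentiableOn ℂ f Ω → MemLp f p (wMeasure Ω φ W) →
    ∀ ε : ℝ≥0∞, 0 < ε →
      ∃ P : Polynomial ℂ, eLpNorm (fun z => f z - P.eval z) p (wMeasure Ω φ W) ≤ ε

theorem isWeight_id : IsWeight fun t => t := by
  refine ⟨fun t ht => ht.1, monotone_id.monotoneOn _, ?_⟩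
  exact tendsto_id.mono_left nhdsWithin_le_nhds

theorem logLogConverges_id : LogLogConverges fun t => t := by
  refine ⟨1 / 3, by norm_num, ?_⟩
  have h1 : IntegrableOn (fun t : ℝ => Real.log t) (Ioo 0 (1 / 3)) volume := by
    have h2 := (intervalIntegral.intervalIntegrable_log' (a := 0) (b := 1 / 3)).1
    exact h2.mono_set Ioo_subset_Ioc_self
  refine Integrable.mono' h1.norm ?_ ?_
  · refine Measurable.aestronglyMeasurable ?_
    fun_prop
  · filter_upwards [ae_restrict_mem measurableSet_Ioo] with t ht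
    have ht0 : 0 < t := ht.1
    have ht1 : t < 1 / 3 := ht.2
    have hlog : Real.log (1 / t) = -Real.log t := by
      rw [one_div, Real.log_inv]
    have h3 : 1 ≤ Real.log (1 / t) := by
      rw [Real.le_log_iff_exp_le (by positivity)]
      have h4 : (3 : ℝ) < 1 / t := by
        rw [lt_div_iff₀ ht0]; linarith
      linarith [Real.exp_one_lt_d9]
    have h5 : 0 ≤ Real.log (Real.log (1 / t)) := Real.log_nonneg h3
    have h6 : Real.log (Real.log (1 / t)) ≤ Real.log (1 / t) := by
      linarith [Real.log_le_sub_one_of_pos (show 0 < Real.log (1 / t) by linarith)]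
    rw [Real.norm_of_nonneg h5]
    rw [Real.norm_eq_abs, ← abs_neg, ← hlog]
    exact h6.trans (le_abs_self _)

/-- **Main theorem.** (1) For every weight function `W` there are a bounded simply connected domain
`Ω` and a conformal map `φ` of `Ω` onto the unit disc, `φ 0 = 0`, such that the boundary of `Ω` has
area zero, the inner boundary of `Ω` is nonempty, and the polynomials are complete in
`L^p_a (Ω, W (1 - |φ|) dx dy)` for all `1 ≤ p < ∞`. (2) The log-log integral converges for some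
weight function, for example for `W t = t`. -/
theorem result :
    (∀ W : ℝ → ℝ, IsWeight W → ∃ (Ω : Set ℂ) (φ : ℂ → ℂ),
      IsOpen Ω ∧ IsSimplyConnected Ω ∧
      {z : ℂ | ‖z‖ < 1 ∧ -(1 / 2 : ℝ) < z.re} ⊆ Ω ∧ Ω ⊆ ball 0 1 ∧
      closure Ω = closedBall 0 1 ∧ volume (frontier Ω) = 0 ∧
      (frontier Ω ∩ interior (closure Ω)).Nonempty ∧
      DifferentiableOn ℂ φ Ω ∧ BijOn φ Ω (ball 0 1) ∧ φ 0 = 0 ∧
      ∀ p : ℝ≥0∞, 1 ≤ p → p ≠ ∞ → PolynomialsComplete Ω φ W p) ∧
    IsWeight (fun t => t) ∧ LogLogConverges (fun t => t) := by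
  refine ⟨fun W hW => ?_, isWeight_id, logLogConverges_id⟩
  have hW' : Run7.h51.LL.IsW W := ⟨hW.pos, hW.mono, hW.lim⟩
  obtain ⟨Ω, U, ho, hb, hhalf, hnot, hvol, hs, hUo, hUev, hgood⟩ :=
    Run7.h51.LL.exists_domain hW'
  have h0 : (0 : ℂ) ∈ Ω := hhalf (by simp)
  obtain ⟨g, φ, hR⟩ := Run7.h51.LL.exists_RM ho h0 hs hb
  have hcl1 : ball (0 : ℂ) 1 ⊆ closure Ω := Run7.h51.LL.ball_subset_closure hvol
  have hcl : closure Ω = closedBall 0 1 := by
    refine subset_antisymm
      (closure_minimal (hb.trans ball_subset_closedBall) isClosed_closedBall) ?_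
    rw [← closure_ball (0 : ℂ) one_ne_zero]
    exact closure_minimal hcl1 isClosed_closure
  refine ⟨Ω, φ, ho, Run7.h51.LL.starshaped_simply h0 hs, hhalf, hb, hcl,
    Run7.h51.LL.frontier_null ho hb hvol, ?_, hR.hφ, ?_, hR.φ0, ?_⟩
  · have h1 : ((-(3 / 4) : ℝ) : ℂ) ∈ ball (0 : ℂ) 1 := by
      rw [mem_ball_zero_iff, Complex.norm_real, Real.norm_eq_abs, abs_neg, abs_of_pos] <;> norm_num
    refine ⟨((-(3 / 4) : ℝ) : ℂ), ?_, ?_⟩
    · rw [ho.frontier_eq]
      exact ⟨hcl1 h1, hnot⟩
    · exact interior_maximal hcl1 isOpen_ball h1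
  · refine ⟨hR.φm, ?_, ?_⟩
    · intro z hz w hw hzw
      rw [← hR.gφ z hz, ← hR.gφ w hw, hzw]
    · intro w hw
      exact ⟨g w, hR.gm hw, hR.φg w hw⟩
  · intro p hp hp' f hf hfp ε hε
    exact Run7.h51.LL.approx hW' ho hb hR hs hUo hUev hgood hp hp' hf hfp hε

end Pool.Agent.Results.MP_d321f7_an.LogLogNotNecessary
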